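import Pool.Agent.DQG.Main

/-!
# Periodic elements of discrete quantum groups are almost periodic

A discrete quantum group `G` is given by the Hopf *-algebra `A` of its compact dual (`IsCQG A`).
The von Neumann algebra of `G` (which is also the multiplier algebra of `C_0(G)`) is the algebra of
those linear functionals on `A` that are uniformly bounded on all finite-dimensional unitary
corepresentations of `A`; its product is the convolution, its unit the counit, its involution
`x^*(a) = conj (x (S(a)^*))`, and its coproduct is `Δ(x)(a ⊗ b) = x(ab)`.

The theorem says that for every discrete quantum group the periodic elements are exactly the finite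
linear combinations of matrix entries of admissible finite-dimensional unitary corepresentations.
-/

open Pool.Agent.DQG

universe u

/-- For every discrete quantum group the periodic elements are exactly the almost periodic
elements. -/
theorem Pool.Agent.Results.MP_14ad63_an.DiscreteQuantumGroups.result :
    ∀ (A : Type u) [Ring A] [StarRing A] [HopfAlgebra ℂ A], IsCQG A →
      {x : A →ₗ[ℂ] ℂ | IsPeriodic x} =
        (Submodule.span ℂ {x : A →ₗ[ℂ] ℂ | ∃ (d : ℕ)
          (U : Matrix (Fin d) (Fin d) (A →ₗ[ℂ] ℂ)), IsAdmissible U ∧ ∃ i j, x = U i j} :
          Set (A →ₗ[ℂ] ℂ)) := by
  intro A _ _ _ hA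
  ext x
  exact ⟨fun hx => periodic_le hA hx, fun hx => le_periodic hx⟩
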